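import Pool.Agent.Lib.MP_28303a_al.NK.Iface2

/-! # The star of the base vertex of the Bass-Serre tree of an HNN extension -/

set_option autoImplicit false

namespace Pool.Agent.NegK.H21

open HNNExtension HNNExtension.NormalWord

variable {G : Type} [Group G] {A B : Subgroup G} {φ : A ≃* B}

/-- The product of a list of letters. -/
def lp (φ : A ≃* B) (l : List (ℤˣ × G)) : HNNExtension G A B φ :=
  (l.map (fun x => (t : HNNExtension G A B φ) ^ (x.1 : ℤ) * of x.2)).prod

/-- The list is reduced. -/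
def ch (A B : Subgroup G) (l : List (ℤˣ × G)) : Prop :=
  l.IsChain (fun a b => a.2 ∈ toSubgroup A B a.1 → a.1 = b.1)

/-- The elements with a reduced word with first exponent `v` and head in `toSubgroup (-v)`. -/
def Su (φ : A ≃* B) (v : ℤˣ) : Set (HNNExtension G A B φ) :=
  {x | ∃ (h : G) (l : List (ℤˣ × G)), ch A B l ∧ x = of h * lp φ l ∧
    (l.map Prod.fst).head? = some v ∧ h ∈ toSubgroup A B (-v)}

theorem lp_append (l l' : List (ℤˣ × G)) : lp φ (l ++ l') = lp φ l * lp φ l' := by
  simp [lp]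

theorem lp_single (a : ℤˣ × G) :
    lp φ [a] = (t : HNNExtension G A B φ) ^ (a.1 : ℤ) * of a.2 := by
  simp [lp]

theorem exists_word (x : HNNExtension G A B φ) :
    ∃ (h : G) (l : List (ℤˣ × G)), ch A B l ∧ x = of h * lp φ l := by
  obtain ⟨d⟩ := TransversalPair.nonempty G A B
  refine ⟨(equiv φ d x).head, (equiv φ d x).toList, (equiv φ d x).chain, ?_⟩
  exact ((equiv φ d).symm_apply_apply x).symm

theorem word_unique {h h' : G} {l l' : List (ℤˣ × G)} (hl : ch A B l) (hl' : ch A B l')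
    (e : (of h * lp φ l : HNNExtension G A B φ) = of h' * lp φ l') :
    l.map Prod.fst = l'.map Prod.fst ∧
      ∀ u ∈ (l.map Prod.fst).head?, h⁻¹ * h' ∈ toSubgroup A B (-u) := by
  have := ReducedWord.map_fst_eq_and_of_prod_eq (φ := φ) (w₁ := ⟨h, l, hl⟩) (w₂ := ⟨h', l', hl'⟩) e
  refine ⟨this.1, fun u hu => this.2 u ?_⟩
  rwa [List.head?_map] at hu

theorem crit {h : G} {l : List (ℤˣ × G)} (hl : ch A B l) (v : ℤˣ) :
    (of h * lp φ l : HNNExtension G A B φ) ∈ Su φ v ↔
      (l.map Prod.fst).head? = some v ∧ h ∈ toSubgroup A B (-v) := by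
  constructor
  · rintro ⟨h', l', hl', e, h1, h2⟩
    obtain ⟨e1, e2⟩ := word_unique hl hl' e
    rw [← e1] at h1
    refine ⟨h1, ?_⟩
    have h3 := e2 v (by rw [h1]; rfl)
    have h4 := (toSubgroup A B (-v)).mul_mem h2 ((toSubgroup A B (-v)).inv_mem h3)
    simpa using h4
  · rintro ⟨h1, h2⟩
    exact ⟨h, l, hl, rfl, h1, h2⟩

theorem right_mul {l : List (ℤˣ × G)} (hl : ch A B l) (hne : l ≠ []) (g : G) :
    ∃ l' : List (ℤˣ × G), ch A B l' ∧ l'.map Prod.fst = l.map Prod.fst ∧
      lp φ l' = lp φ l * of g := by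
  rcases List.eq_nil_or_concat l with h | ⟨l0, ⟨u, h⟩, rfl⟩
  · exact absurd h hne
  · rw [List.concat_eq_append] at *
    unfold ch at hl
    rw [List.isChain_append] at hl
    refine ⟨l0 ++ [(u, h * g)], ?_, by simp, ?_⟩
    · unfold ch
      rw [List.isChain_append]
      refine ⟨hl.1, by simp, ?_⟩
      intro x hx y hy
      have := hl.2.2 x hx (u, h) (by simp)
      simp only [List.head?_cons, Option.mem_def, Option.some.injEq] at hy
      rw [← hy]
      exact this
    · rw [lp_append, lp_append, lp_single, lp_single, map_mul, mul_assoc, mul_assoc]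

theorem Su_right_aux {v : ℤˣ} {x : HNNExtension G A B φ} (hx : x ∈ Su φ v) (g : G) :
    x * of g ∈ Su φ v := by
  obtain ⟨h, l, hl, rfl, h1, h2⟩ := hx
  have hne : l ≠ [] := by rintro rfl; simp at h1
  obtain ⟨l', hl', e1, e2⟩ := right_mul (φ := φ) hl hne g
  exact ⟨h, l', hl', by rw [e2, mul_assoc], by rw [e1]; exact h1, h2⟩

theorem Su_right {v : ℤˣ} {x : HNNExtension G A B φ} (g : G) :
    x * of g ∈ Su φ v ↔ x ∈ Su φ v := by
  constructor
  · intro h
    have := Su_right_aux h g⁻¹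
    rwa [mul_assoc, ← map_mul, mul_inv_cancel, map_one, mul_one] at this
  · intro h
    exact Su_right_aux h g

theorem conj_mem (v : ℤˣ) (h : G) (hh : h ∈ toSubgroup A B (-v)) :
    ∃ k : G, ((t : HNNExtension G A B φ) ^ ((-v : ℤˣ) : ℤ) * of h) * t ^ (v : ℤ) = of k := by
  rcases Int.units_eq_one_or v with rfl | rfl
  · refine ⟨φ.symm ⟨h, hh⟩, ?_⟩
    have := equiv_symm_eq_conj (φ := φ) ⟨h, hh⟩
    rw [this]
    simp
  · have hh' : h ∈ A := by simpa using hh
    refine ⟨φ ⟨h, hh'⟩, ?_⟩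
    have := equiv_eq_conj (φ := φ) ⟨h, hh'⟩
    rw [this]
    simp

theorem app1 {l : List (ℤˣ × G)} (hl : ch A B l) (hne : l ≠ []) (v : ℤˣ) :
    (∃ l' : List (ℤˣ × G), ch A B l' ∧ l'.map Prod.fst = l.map Prod.fst ++ [v] ∧
      lp φ l' = lp φ l * t ^ (v : ℤ)) ∨
    (∃ (l' : List (ℤˣ × G)) (k : G), ch A B l' ∧ l.map Prod.fst = l'.map Prod.fst ++ [-v] ∧
      lp φ l * t ^ (v : ℤ) = lp φ l' * of k) := by
  rcases List.eq_nil_or_concat l with h | ⟨l0, ⟨u, h⟩, rfl⟩
  · exact absurd h hne
  · rw [List.concat_eq_append] at *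
    by_cases hc : h ∈ toSubgroup A B u → u = v
    · left
      refine ⟨l0 ++ [(u, h)] ++ [(v, 1)], ?_, by simp, ?_⟩
      · unfold ch
        rw [List.isChain_append]
        refine ⟨hl, by simp, ?_⟩
        intro x hx y hy
        simp only [List.getLast?_append, List.getLast?_singleton, Option.some_or,
          Option.mem_def, Option.some.injEq] at hx
        simp only [List.head?_cons, Option.mem_def, Option.some.injEq] at hy
        rw [← hx, ← hy]
        exact hc
      · rw [lp_append _ [(v, 1)], lp_single, map_one, mul_one]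
    · right
      push Not at hc
      obtain ⟨h1, h2⟩ := hc
      have hu : u = -v := Int.units_ne_iff_eq_neg.1 h2
      subst hu
      obtain ⟨k, hk⟩ := conj_mem (φ := φ) v h h1
      have hl0 : ch A B l0 := by
        unfold ch at hl ⊢
        rw [List.isChain_append] at hl
        exact hl.1
      refine ⟨l0, k, hl0, by simp, ?_⟩
      rw [lp_append, lp_single, mul_assoc]
      rw [hk]

theorem Su_step (v : ℤˣ) (g : HNNExtension G A B φ)
    (hg : ¬ (g ∈ Su φ v ↔ g * t ^ (v : ℤ) ∈ Su φ v)) :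
    ∃ a ∈ (toSubgroup A B (-v)).map (of (φ := φ)), g = a := by
  obtain ⟨h, l, hl, rfl⟩ := exists_word g
  by_cases hne : l = []
  · subst hne
    by_cases hh : h ∈ toSubgroup A B (-v)
    · exact ⟨of h, ⟨h, hh, rfl⟩, by simp [lp]⟩
    · exfalso
      apply hg
      have e : (of h * lp φ [] * t ^ (v : ℤ) : HNNExtension G A B φ)
          = of h * lp φ [(v, 1)] := by simp [lp]
      rw [e, crit hl v, crit (by simp [ch]) v]
      simp [hh]
  · exfalso
    apply hg
    rcases app1 (φ := φ) hl hne v with ⟨l', hl', e1, e2⟩ | ⟨l', k, hl', e1, e2⟩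
    · rw [mul_assoc, ← e2, crit hl v, crit hl' v, e1]
      have : (List.map Prod.fst l ++ [v]).head? = (List.map Prod.fst l).head? := by
        cases l with
        | nil => exact absurd rfl hne
        | cons a l => simp
      rw [this]
    · rw [mul_assoc, e2, ← mul_assoc, Su_right, crit hl v, crit hl' v, e1]
      by_cases hn : l' = []
      · subst hn
        have h3 : ¬ (-v = v) := by
          rcases Int.units_eq_one_or v with rfl | rfl <;> decide
        simp [h3]
      · have : (List.map Prod.fst l' ++ [-v]).head? = (List.map Prod.fst l').head? := by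
          cases l' with
          | nil => exact absurd rfl hn
          | cons a l => simp
        rw [this]

theorem Su_fin (v : ℤˣ) (x : HNNExtension G A B φ) :
    ∃ F : Finset (HNNExtension G A B φ), ∀ g : HNNExtension G A B φ,
      ¬ (g ∈ Su φ v ↔ g * x ∈ Su φ v) →
        ∃ a ∈ (toSubgroup A B (-v)).map (of (φ := φ)), ∃ f ∈ F, g = a * f := by
  classical
  have hinv : ∀ x : HNNExtension G A B φ,
      (∃ F : Finset (HNNExtension G A B φ), ∀ g : HNNExtension G A B φ,
      ¬ (g ∈ Su φ v ↔ g * x ∈ Su φ v) →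
        ∃ a ∈ (toSubgroup A B (-v)).map (of (φ := φ)), ∃ f ∈ F, g = a * f) →
      (∃ F : Finset (HNNExtension G A B φ), ∀ g : HNNExtension G A B φ,
      ¬ (g ∈ Su φ v ↔ g * x⁻¹ ∈ Su φ v) →
        ∃ a ∈ (toSubgroup A B (-v)).map (of (φ := φ)), ∃ f ∈ F, g = a * f) := by
    rintro x ⟨F, hF⟩
    refine ⟨F.image (· * x), fun g hg => ?_⟩
    obtain ⟨a, ha, f, hf, e⟩ := hF (g * x⁻¹) (by
      rw [inv_mul_cancel_right]
      intro hc
      exact hg hc.symm)
    refine ⟨a, ha, f * x, Finset.mem_image_of_mem _ hf, ?_⟩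
    rw [← mul_assoc, ← e, inv_mul_cancel_right]
  induction x using HNNExtension.induction_on with
  | of h => exact ⟨∅, fun g hg => absurd (Su_right h).symm hg⟩
  | t =>
    have h1 : ∃ F : Finset (HNNExtension G A B φ), ∀ g : HNNExtension G A B φ,
      ¬ (g ∈ Su φ v ↔ g * t ^ (v : ℤ) ∈ Su φ v) →
        ∃ a ∈ (toSubgroup A B (-v)).map (of (φ := φ)), ∃ f ∈ F, g = a * f := by
      refine ⟨{1}, fun g hg => ?_⟩
      obtain ⟨a, ha, e⟩ := Su_step v g hg
      exact ⟨a, ha, 1, by simp, by rw [mul_one, e]⟩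
    rcases Int.units_eq_one_or v with rfl | rfl
    · simpa using h1
    · have h2 := hinv _ h1
      simpa using h2
  | mul x y hx hy =>
    obtain ⟨F1, h1⟩ := hx
    obtain ⟨F2, h2⟩ := hy
    refine ⟨F1 ∪ F2.image (· * x⁻¹), fun g hg => ?_⟩
    by_cases hc : g ∈ Su φ v ↔ g * x ∈ Su φ v
    · obtain ⟨a, ha, f, hf, e⟩ := h2 (g * x) (by
        rw [← hc, mul_assoc]
        exact hg)
      refine ⟨a, ha, f * x⁻¹, Finset.mem_union_right _ (Finset.mem_image_of_mem _ hf), ?_⟩
      rw [← mul_assoc, ← e, mul_inv_cancel_right]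
    · obtain ⟨a, ha, f, hf, e⟩ := h1 g hc
      exact ⟨a, ha, f, Finset.mem_union_left _ hf, e⟩
  | inv x hx => exact hinv x hx

/-- The exponent. -/
def ex (b : Bool) : ℤˣ := if b then -1 else 1

theorem sub_ex (b : Bool) : toSubgroup A B (-(ex b)) = if b then A else B := by
  cases b
  · simp [ex]
  · simp [ex]

theorem ex_inj {b c : Bool} (h : ex b = ex c) : b = c := by
  revert h
  cases b <;> cases c <;> decide

theorem hnnt : HnntStatement := by
  intro G _ A B φ
  refine ⟨fun b => Su φ (ex b), ?_⟩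
  refine
    { le := fun j => Subgroup.map_le_range _ _
      left := ?_
      right := ?_
      disj := ?_
      notMem := ?_
      cover := ?_
      fin := ?_ }
  · intro j a ha x hx
    rw [← sub_ex] at ha
    obtain ⟨a0, ha0, rfl⟩ := ha
    obtain ⟨h, l, hl, rfl, h1, h2⟩ := hx
    exact ⟨a0 * h, l, hl, by rw [map_mul, mul_assoc], h1, mul_mem ha0 h2⟩
  · rintro j x hx _ ⟨g, rfl⟩
    exact Su_right_aux hx g
  · rintro i j _ ⟨g, rfl⟩ x hx hgx
    obtain ⟨h, l, hl, rfl, h1, h2⟩ := hx
    rw [← mul_assoc, ← map_mul, crit hl] at hgx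
    obtain ⟨h3, h4⟩ := hgx
    have e : ex i = ex j := by
      rw [h1] at h3
      exact Option.some.inj h3
    have e' := ex_inj e
    subst e'
    refine ⟨rfl, ?_⟩
    rw [← sub_ex]
    refine ⟨g, ?_, rfl⟩
    have := mul_mem h4 (inv_mem h2)
    simpa using this
  · rintro j x hx ⟨g, rfl⟩
    have h1 : (of g : HNNExtension G A B φ) = of g * lp φ [] := by simp [lp]
    rw [h1, crit (by simp [ch])] at hx
    simp at hx
  · intro x hx
    obtain ⟨h, l, hl, rfl⟩ := exists_word x
    cases l with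
    | nil =>
      exfalso
      apply hx
      exact ⟨h, by simp [lp]⟩
    | cons a l =>
      have : ∃ b, ex b = a.1 := by
        rcases Int.units_eq_one_or a.1 with h | h
        · exact ⟨false, by rw [h]; rfl⟩
        · exact ⟨true, by rw [h]; rfl⟩
      obtain ⟨b, hb⟩ := this
      refine ⟨b, of h⁻¹, ⟨h⁻¹, rfl⟩, ?_⟩
      rw [← mul_assoc, ← map_mul, inv_mul_cancel, crit hl, hb]
      exact ⟨by simp, one_mem _⟩
  · intro j x
    have := Su_fin (φ := φ) (ex j) x
    rw [← sub_ex]
    exact this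

end Pool.Agent.NegK.H21
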